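import Mathlib

set_option autoImplicit false

/-!
# The Fejér kernel (module K of MP_0ec205_nt)
-/

noncomputable section

namespace Pool.Agent.helper4.LRK

open Complex MeasureTheory Set intervalIntegral

/-- the Fejer kernel -/
def fej (X s : ℝ) : ℝ := 1 / X * ∫ x in (-X)..X, (1 - |x| / X) * Real.cos (x * s)

theorem fej_continuous {X : ℝ} (_hX : 0 < X) : Continuous (fej X) := by
  unfold fej
  refine continuous_const.mul ?_
  apply intervalIntegral.continuous_parametric_intervalIntegral_of_continuous'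
  fun_prop

lemma half (X s : ℝ) : ∫ x in (-X)..X, (1 - |x| / X) * Real.cos (x * s) =
    2 * ∫ x in (0:ℝ)..X, (1 - |x| / X) * Real.cos (x * s) := by
  have hint : ∀ a b : ℝ, IntervalIntegrable (fun x => (1 - |x| / X) * Real.cos (x * s)) volume a b :=
    fun a b => Continuous.intervalIntegrable (by fun_prop) a b
  rw [← integral_add_adjacent_intervals (hint (-X) 0) (hint 0 X), two_mul]
  congr 1
  have h := integral_comp_neg (a := -X) (b := 0) (fun x => (1 - |x| / X) * Real.cos (x * s))
  simp only [neg_zero, neg_neg, abs_neg, neg_mul, Real.cos_neg] at h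
  exact h

lemma deriv_prim {X s : ℝ} (hX : X ≠ 0) (hs : s ≠ 0) (x : ℝ) :
    HasDerivAt (fun x : ℝ => (1 - x / X) * Real.sin (x * s) / s - Real.cos (x * s) / (X * s ^ 2))
      ((1 - x / X) * Real.cos (x * s)) x := by
  have h1 : HasDerivAt (fun x : ℝ => x * s) s x := by simpa using (hasDerivAt_id x).mul_const s
  have h2 : HasDerivAt (fun x : ℝ => 1 - x / X) (-(1 / X)) x := by
    simpa using ((hasDerivAt_id x).div_const X).const_sub 1
  have h3 := (h2.mul h1.sin).div_const s
  have h4 := (h1.cos).div_const (X * s ^ 2)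
  have h5 := h3.sub h4
  refine h5.congr_deriv ?_
  field_simp
  ring

lemma half_integral {X s : ℝ} (hX : 0 < X) (hs : s ≠ 0) :
    ∫ x in (0:ℝ)..X, (1 - |x| / X) * Real.cos (x * s) = (1 - Real.cos (X * s)) / (X * s ^ 2) := by
  have h1 : ∫ x in (0:ℝ)..X, (1 - |x| / X) * Real.cos (x * s) =
      ∫ x in (0:ℝ)..X, (1 - x / X) * Real.cos (x * s) := by
    apply intervalIntegral.integral_congr
    intro x hx
    rw [uIcc_of_le hX.le] at hx
    simp only [abs_of_nonneg hx.1]
  rw [h1, integral_eq_sub_of_hasDerivAt (fun x _ => deriv_prim hX.ne' hs x)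
    (Continuous.intervalIntegrable (by fun_prop) _ _)]
  simp only [zero_mul, Real.sin_zero, Real.cos_zero, div_self hX.ne']
  field_simp
  ring

lemma fej_eq {X s : ℝ} (hX : 0 < X) (hs : s ≠ 0) :
    fej X s = 2 * (1 - Real.cos (X * s)) / (X * s) ^ 2 := by
  unfold fej
  rw [half, half_integral hX hs]
  field_simp

theorem fej_zero {X : ℝ} (hX : 0 < X) : fej X 0 = 1 := by
  unfold fej
  rw [half]
  have h1 : ∫ x in (0:ℝ)..X, (1 - |x| / X) * Real.cos (x * 0) = X / 2 := by
    have h2 : ∫ x in (0:ℝ)..X, (1 - |x| / X) * Real.cos (x * 0) =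
        ∫ x in (0:ℝ)..X, (1 - x / X) := by
      apply intervalIntegral.integral_congr
      intro x hx
      rw [uIcc_of_le hX.le] at hx
      simp only [abs_of_nonneg hx.1, mul_zero, Real.cos_zero, mul_one]
    have h3 : ∀ x : ℝ, HasDerivAt (fun x : ℝ => x - x ^ 2 / (2 * X)) (1 - x / X) x := by
      intro x
      have h4 := (hasDerivAt_id x).sub ((hasDerivAt_pow 2 x).div_const (2 * X))
      refine h4.congr_deriv ?_
      field_simp
      simp
      ring
    rw [h2, integral_eq_sub_of_hasDerivAt (fun x _ => h3 x)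
      (Continuous.intervalIntegrable (by fun_prop) _ _)]
    field_simp
    ring
  rw [h1]
  field_simp

theorem fej_nonneg {X : ℝ} (hX : 0 < X) (s : ℝ) : 0 ≤ fej X s := by
  rcases eq_or_ne s 0 with rfl | hs
  · rw [fej_zero hX]; exact zero_le_one
  · rw [fej_eq hX hs]
    have := Real.cos_le_one (X * s)
    positivity [sub_nonneg.2 this]


lemma fej_le {X : ℝ} (hX : 0 < X) (s : ℝ) : fej X s ≤ 5 * (1 + (X * s) ^ 2)⁻¹ := by
  rcases eq_or_ne s 0 with rfl | hs
  · rw [fej_zero hX]; norm_num
  · rw [fej_eq hX hs]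
    have h1 := Real.neg_one_le_cos (X * s)
    have h2 := Real.one_sub_sq_div_two_le_cos (x := X * s)
    have h3 : 0 < (X * s) ^ 2 := by positivity
    rw [← div_eq_mul_inv, div_le_div_iff₀ h3 (by positivity)]
    nlinarith

theorem fej_integrable {X : ℝ} (hX : 0 < X) : Integrable (fej X) := by
  have h1 : Integrable (fun s : ℝ => 5 * (1 + (X * s) ^ 2)⁻¹) :=
    (integrable_inv_one_add_sq.comp_mul_left' hX.ne').const_mul 5
  refine h1.mono' (fej_continuous hX).aestronglyMeasurable (Filter.Eventually.of_forall fun s => ?_)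
  rw [Real.norm_of_nonneg (fej_nonneg hX s)]
  exact fej_le hX s

/-- the triangle function -/
def tri (X : ℝ) (x : ℝ) : ℂ := ((max 0 (1 - |x| / X) / X : ℝ) : ℂ)

lemma tri_continuous (X : ℝ) : Continuous (tri X) := by
  unfold tri
  fun_prop

lemma tri_eq {X : ℝ} (hX : 0 < X) {x : ℝ} (hx : x ∈ Icc (-X) X) :
    tri X x = (((1 - |x| / X) / X : ℝ) : ℂ) := by
  unfold tri
  rw [max_eq_right]
  rw [sub_nonneg, div_le_one hX]
  exact abs_le.2 hx

lemma tri_zero {X : ℝ} (hX : 0 < X) {x : ℝ} (hx : x ∉ Ioc (-X) X) : tri X x = 0 := by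
  unfold tri
  rw [max_eq_left, zero_div, ofReal_zero]
  rw [sub_nonpos, one_le_div hX]
  by_contra h
  push Not at h
  exact hx ⟨(abs_lt.1 h).1, (abs_lt.1 h).2.le⟩

lemma tri_integrable {X : ℝ} (hX : 0 < X) : Integrable (tri X) := by
  have h1 : IntegrableOn (tri X) (Ioc (-X) X) :=
    ((tri_continuous X).integrableOn_Icc).mono_set Ioc_subset_Icc_self
  rwa [integrableOn_iff_integrable_of_support_subset] at h1
  intro x hx
  by_contra h
  exact hx (tri_zero hX h)

open FourierTransform in
lemma fourier_tri {X : ℝ} (hX : 0 < X) (ξ : ℝ) : 𝓕 (tri X) ξ = (fej X (2 * Real.pi * ξ) : ℂ) := by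
  rw [Real.fourier_real_eq_integral_exp_smul]
  have h0 : ∫ v : ℝ, cexp (↑(-2 * Real.pi * v * ξ) * I) • tri X v =
      ∫ v in (-X)..X, cexp (↑(-2 * Real.pi * v * ξ) * I) • tri X v := by
    rw [intervalIntegral.integral_of_le (by linarith),
      setIntegral_eq_integral_of_forall_compl_eq_zero]
    intro v hv
    rw [tri_zero hX hv, smul_zero]
  have he0 : Continuous fun v : ℝ => cexp (↑(-2 * Real.pi * v * ξ) * I) := by fun_prop
  have hc : Continuous fun v : ℝ => cexp (↑(-2 * Real.pi * v * ξ) * I) • tri X v :=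
    Continuous.smul he0 (tri_continuous X)
  have h1 : ∫ v in (-X)..X, cexp (↑(-2 * Real.pi * v * ξ) * I) • tri X v =
      ∫ v in (-X)..X, cexp (-(↑(-2 * Real.pi * v * ξ) * I)) • tri X v := by
    have := intervalIntegral.integral_comp_neg (a := -X) (b := X)
      (fun v : ℝ => cexp (↑(-2 * Real.pi * v * ξ) * I) • tri X v)
    rw [neg_neg] at this
    rw [← this]
    apply intervalIntegral.integral_congr
    intro v _
    have h2 : tri X (-v) = tri X v := by unfold tri; rw [abs_neg]
    simp only [h2]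
    congr 2
    push_cast
    ring
  have he : Continuous fun v : ℝ => cexp (-(↑(-2 * Real.pi * v * ξ) * I)) := by fun_prop
  have hc' : Continuous fun v : ℝ => cexp (-(↑(-2 * Real.pi * v * ξ) * I)) • tri X v :=
    Continuous.smul he (tri_continuous X)
  have h2 : 2 * ∫ v in (-X)..X, cexp (↑(-2 * Real.pi * v * ξ) * I) • tri X v =
      ∫ v in (-X)..X, ((2 * ((1 - |v| / X) * Real.cos (v * (2 * Real.pi * ξ))) / X : ℝ) : ℂ) := by
    rw [two_mul]
    nth_rw 2 [h1]
    rw [← intervalIntegral.integral_add (hc.intervalIntegrable _ _) (hc'.intervalIntegrable _ _)]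
    apply intervalIntegral.integral_congr
    intro v hv
    rw [uIcc_of_le (by linarith)] at hv
    simp only [tri_eq hX hv]
    rw [← add_smul]
    have h3 : cexp (↑(-2 * Real.pi * v * ξ) * I) + cexp (-(↑(-2 * Real.pi * v * ξ) * I)) =
        2 * Complex.cos (v * (2 * Real.pi * ξ)) := by
      rw [Complex.two_cos, add_comm]
      congr 2 <;> push_cast <;> ring
    rw [h3, smul_eq_mul]
    push_cast
    ring
  rw [h0]
  have h4 : (2 : ℂ) * ∫ v in (-X)..X, cexp (↑(-2 * Real.pi * v * ξ) * I) • tri X v =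
      2 * (fej X (2 * Real.pi * ξ) : ℂ) := by
    rw [h2, intervalIntegral.integral_ofReal]
    unfold fej
    rw [intervalIntegral.integral_div, intervalIntegral.integral_const_mul]
    push_cast
    ring
  exact mul_left_cancel₀ two_ne_zero h4

open FourierTransform in
theorem fej_integral {X : ℝ} (hX : 0 < X) : ∫ s, fej X s = 2 * Real.pi / X := by
  have hπ := Real.pi_pos
  have h1 : 𝓕 (tri X) = fun ξ => (fej X (2 * Real.pi * ξ) : ℂ) := funext (fourier_tri hX)
  have h2 : Integrable (𝓕 (tri X)) := by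
    rw [h1]
    exact ((fej_integrable hX).comp_mul_left' (by positivity : 2 * Real.pi ≠ 0)).ofReal
  have h3 := (tri_integrable hX).fourierInv_fourier_eq h2 (tri_continuous X).continuousAt (v := 0)
  rw [Real.fourierInv_eq', h1] at h3
  simp only [inner_zero_right, mul_zero, ofReal_zero, zero_mul, Complex.exp_zero, one_smul] at h3
  rw [integral_complex_ofReal, Measure.integral_comp_mul_left (fej X) (2 * Real.pi)] at h3
  unfold tri at h3
  have h4 : |(2 * Real.pi)⁻¹| • ∫ s, fej X s = max 0 (1 - |(0:ℝ)| / X) / X := by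
    exact_mod_cast h3
  rw [abs_of_pos (by positivity), smul_eq_mul] at h4
  simp only [abs_zero, zero_div, sub_zero] at h4
  rw [max_eq_right zero_le_one] at h4
  field_simp at h4 ⊢
  linarith

end Pool.Agent.helper4.LRK
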